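import Pool.Agent.Wtb.Col
import Pool.Agent.Whl.Main

/-!
# Bicliques in wheel-free graphs and the vertices attached to them (MP_e2a513_co, dumbbells)
-/

set_option autoImplicit false
set_option linter.unusedSimpArgs false

namespace Wtb

variable {V : Type}

lemma c4 : ∀ i j : Fin 4, (SimpleGraph.cycleGraph 4).Adj i j ↔ (j = i + 1 ∨ i = j + 1) := by
  decide

lemma fourhole {G : SimpleGraph V} {a b a' b' : V} (h1 : G.Adj a b) (h2 : G.Adj b a')
    (h3 : G.Adj a' b') (h4 : G.Adj b' a) (h5 : ¬ G.Adj a a') (h6 : ¬ G.Adj b b') (haa : a ≠ a')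
    (hbb : b ≠ b') :
    ∃ c : SimpleGraph.cycleGraph 4 ↪g G, c 0 = a ∧ c 1 = b ∧ c 2 = a' ∧ c 3 = b' := by
  have h5' : ¬ G.Adj a' a := fun h => h5 h.symm
  have h6' : ¬ G.Adj b' b := fun h => h6 h.symm
  refine ⟨{ toFun := ![a, b, a', b'], inj' := ?_, map_rel_iff' := ?_ }, rfl, rfl, rfl, rfl⟩
  · intro i j hij
    fin_cases i <;> fin_cases j <;>
      simp_all [h1.ne, h1.ne.symm, h2.ne, h2.ne.symm, h3.ne, h3.ne.symm, h4.ne, h4.ne.symm,
        haa.symm, hbb.symm]
  · intro i j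
    change G.Adj (![a, b, a', b'] i) (![a, b, a', b'] j) ↔ _
    rw [c4]
    fin_cases i <;> fin_cases j <;>
      simp [h1, h2, h3, h4, h5, h6, h5', h6', h1.symm, h2.symm, h3.symm, h4.symm]

lemma fourwheel {G : SimpleGraph V} {a b a' b' z : V} (h1 : G.Adj a b) (h2 : G.Adj b a')
    (h3 : G.Adj a' b') (h4 : G.Adj b' a) (h5 : ¬ G.Adj a a') (h6 : ¬ G.Adj b b') (haa : a ≠ a')
    (hbb : b ≠ b') (hz : z ≠ b') (e1 : G.Adj z a) (e2 : G.Adj z b) (e3 : G.Adj z a') :
    Whl.HasWheel G := by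
  obtain ⟨c, c0, c1, c2, c3⟩ := fourhole h1 h2 h3 h4 h5 h6 haa hbb
  refine ⟨4, le_rfl, c, z, ?_, 0, 1, 2, by decide, by decide, by decide, ?_, ?_, ?_⟩
  · rintro ⟨i, hi⟩
    fin_cases i
    · exact e1.ne (c0.symm.trans hi).symm
    · exact e2.ne (c1.symm.trans hi).symm
    · exact e3.ne (c2.symm.trans hi).symm
    · exact hz (c3.symm.trans hi).symm
  · rw [c0]
    exact e1
  · rw [c1]
    exact e2
  · rw [c2]
    exact e3

/-- `A`, `B` are the sides of an induced complete bipartite graph -/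
structure Bq (G : SimpleGraph V) (A B : Finset V) : Prop where
  l : ∀ x ∈ A, ∀ y ∈ A, ¬ G.Adj x y
  r : ∀ x ∈ B, ∀ y ∈ B, ¬ G.Adj x y
  c : ∀ x ∈ A, ∀ y ∈ B, G.Adj x y

lemma Bq.symm {G : SimpleGraph V} {A B : Finset V} (h : Bq G A B) : Bq G B A :=
  ⟨h.r, h.l, fun x hx y hy => (h.c y hy x hx).symm⟩

/-- `K_{s+1,s+1}` -/
abbrev Kb (s : ℕ) : SimpleGraph (Fin (s + 1) ⊕ Fin (s + 1)) :=
  completeBipartiteGraph (Fin (s + 1)) (Fin (s + 1))

lemma mkKb {G : SimpleGraph V} {s : ℕ} {L R : Finset V} (hL : L.card = s + 1)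
    (hR : R.card = s + 1) (h : Bq G L R) {x0 : V} (hx : x0 ∈ L) :
    ∃ f : Kb s ↪g G, (∀ i, f (Sum.inl i) ∈ L) ∧ (∀ j, f (Sum.inr j) ∈ R) ∧
      f (Sum.inl 0) = x0 := by
  classical
  set e0 := Finset.equivFinOfCardEq hL with he0
  set eI : Fin (s + 1) ≃ L := (Equiv.swap 0 (e0 ⟨x0, hx⟩)).trans e0.symm with heI
  set eJ := (Finset.equivFinOfCardEq hR).symm with heJ
  have h0 : (eI 0 : V) = x0 := by
    rw [heI]
    simp
  refine ⟨{ toFun := Sum.elim (fun i => (eI i : V)) (fun j => (eJ j : V)), inj' := ?_,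
            map_rel_iff' := ?_ }, fun i => (eI i).2, fun j => (eJ j).2, h0⟩
  · rintro (i | i) (j | j) hij
    · simp only [Sum.elim_inl] at hij
      rw [eI.injective (Subtype.ext hij)]
    · exact absurd hij (h.c _ (eI i).2 _ (eJ j).2).ne
    · exact absurd hij.symm (h.c _ (eI j).2 _ (eJ i).2).ne
    · simp only [Sum.elim_inr] at hij
      rw [eJ.injective (Subtype.ext hij)]
  · rintro (i | i) (j | j)
    · simp only [completeBipartiteGraph_adj, Function.Embedding.coeFn_mk, Sum.elim_inl,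
        Sum.isLeft_inl, Sum.isRight_inl, Bool.false_eq_true, and_false, false_and, or_self,
        iff_false]
      exact h.l _ (eI i).2 _ (eI j).2
    · simp only [completeBipartiteGraph_adj, Function.Embedding.coeFn_mk, Sum.elim_inl,
        Sum.elim_inr, Sum.isLeft_inl, Sum.isRight_inr, true_and, true_or, iff_true]
      exact h.c _ (eI i).2 _ (eJ j).2
    · simp only [completeBipartiteGraph_adj, Function.Embedding.coeFn_mk, Sum.elim_inl,
        Sum.elim_inr, Sum.isLeft_inl, Sum.isRight_inr, true_and, or_true, iff_true]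
      exact (h.c _ (eI j).2 _ (eJ i).2).symm
    · simp only [completeBipartiteGraph_adj, Function.Embedding.coeFn_mk, Sum.elim_inr,
        Sum.isLeft_inr, Sum.isRight_inr, Bool.false_eq_true, and_false, false_and, or_self,
        iff_false]
      exact h.r _ (eJ i).2 _ (eJ j).2

/-- two neighbours in one side exclude neighbours in the other -/
lemma onesided {G : SimpleGraph V} (hG : ¬ Whl.HasWheel G) {A B : Finset V} (hq : Bq G A B)
    (hB : 2 ≤ B.card) {z : V} (hzB : z ∉ B) (h2 : ∃ x ∈ A, ∃ x' ∈ A, x ≠ x' ∧ G.Adj z x ∧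
      G.Adj z x') : ∀ y ∈ B, ¬ G.Adj z y := by
  intro y hy hzy
  obtain ⟨x, hx, x', hx', hxx, a1, a2⟩ := h2
  obtain ⟨y', hy', hyy⟩ := Finset.exists_mem_ne (by omega : 1 < B.card) y
  refine hG (fourwheel (a := x) (b := y) (a' := x') (b' := y') (z := z) (hq.c x hx y hy)
    (hq.c x' hx' y hy).symm (hq.c x' hx' y' hy') (hq.c x hx y' hy').symm (hq.l x hx x' hx')
    (hq.r y hy y' hy') hxx hyy.symm ?_ a1 hzy a2)
  rintro rfl
  exact hzB hy'

lemma two_of_card {G : SimpleGraph V} {A : Finset V} {z : V} [DecidableRel G.Adj]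
    (h : 2 ≤ (A.filter fun x => G.Adj z x).card) :
    ∃ x ∈ A, ∃ x' ∈ A, x ≠ x' ∧ G.Adj z x ∧ G.Adj z x' := by
  obtain ⟨x, hx, x', hx', hxx⟩ := Finset.one_lt_card.1 (by omega :
    1 < (A.filter fun x => G.Adj z x).card)
  rw [Finset.mem_filter] at hx hx'
  exact ⟨x, hx.1, x', hx'.1, hxx, hx.2, hx'.2⟩

/-- a vertex attached to the side `A` of a large biclique is either pendant at a smaller one or is
a vertex of a smaller one -/
lemma klem {G : SimpleGraph V} (hG : ¬ Whl.HasWheel G) {s : ℕ} {A B : Finset V} (hq : Bq G A B)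
    (hA : 2 * s + 2 ≤ A.card) (hB : 2 * s + 2 ≤ B.card) {z : V} (hzA : z ∉ A) (hzB : z ∉ B)
    (hz : ∃ x ∈ A, G.Adj z x) :
    (∃ f : Kb s ↪g G, (∀ x, f x ∈ A ∨ f x ∈ B) ∧ ∀ x, G.Adj z (f x) ↔ x = Sum.inl 0) ∨
      (∃ f : Kb s ↪g G, (∀ x, x ≠ Sum.inl 0 → f x ∈ A ∨ f x ∈ B) ∧ f (Sum.inl 0) = z) := by
  classical
  obtain ⟨a, ha, hza⟩ := hz
  have cA := Finset.card_filter_add_card_filter_not (s := A) (fun x => G.Adj z x)
  have cB := Finset.card_filter_add_card_filter_not (s := B) (fun x => G.Adj z x)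
  set A1 := A.filter (fun x => G.Adj z x) with hA1
  set A0 := A.filter (fun x => ¬ G.Adj z x) with hA0
  set B1 := B.filter (fun x => G.Adj z x) with hB1
  set B0 := B.filter (fun x => ¬ G.Adj z x) with hB0
  by_cases h0 : A0.card < s
  · right
    have hno : ∀ y ∈ B, ¬ G.Adj z y := by
      refine onesided hG hq (by omega) hzB (two_of_card ?_)
      rw [← hA1]
      omega
    obtain ⟨B', hB', hB'c⟩ := Finset.exists_subset_card_eq (show s ≤ B.card by omega)
    obtain ⟨A', hA', hA'c⟩ := Finset.exists_subset_card_eq (show s + 1 ≤ A1.card by omega)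
    have hzB' : z ∉ B' := fun h => hzB (hB' h)
    have hAA : ∀ x ∈ A', x ∈ A ∧ G.Adj z x := fun x hx => Finset.mem_filter.1 (hA' hx)
    obtain ⟨f, f1, f2, f3⟩ := mkKb (G := G) (s := s) (L := insert z B') (R := A')
      (by rw [Finset.card_insert_of_notMem hzB', hB'c]) hA'c
      { l := by
          intro x hx y hy
          rw [Finset.mem_insert] at hx hy
          rcases hx with rfl | hx
          · rcases hy with rfl | hy
            · exact G.loopless.irrefl _
            · exact hno y (hB' hy)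
          · rcases hy with rfl | hy
            · exact fun h => hno x (hB' hx) h.symm
            · exact hq.r x (hB' hx) y (hB' hy)
        r := fun x hx y hy => hq.l x (hAA x hx).1 y (hAA y hy).1
        c := by
          intro x hx y hy
          rw [Finset.mem_insert] at hx
          rcases hx with rfl | hx
          · exact (hAA y hy).2
          · exact (hq.c y (hAA y hy).1 x (hB' hx)).symm } (Finset.mem_insert_self z B')
    refine ⟨f, ?_, f3⟩
    rintro (i | i) hi
    · rcases Finset.mem_insert.1 (f1 i) with h | h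
      · exfalso
        exact hi (f.injective (h.trans f3.symm))
      · exact Or.inr (hB' h)
    · exact Or.inl (hAA _ (f2 i)).1
  · have h1 : s + 1 ≤ B0.card := by
      by_contra h1
      have hno : ∀ y ∈ A, ¬ G.Adj z y := by
        refine onesided hG hq.symm (by omega) hzA (two_of_card ?_)
        rw [← hB1]
        omega
      exact hno a ha hza
    left
    obtain ⟨A', hA', hA'c⟩ := Finset.exists_subset_card_eq (show s ≤ A0.card by omega)
    obtain ⟨B', hB', hB'c⟩ := Finset.exists_subset_card_eq h1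
    have hAA : ∀ x ∈ A', x ∈ A ∧ ¬ G.Adj z x := fun x hx => Finset.mem_filter.1 (hA' hx)
    have hBB : ∀ x ∈ B', x ∈ B ∧ ¬ G.Adj z x := fun x hx => Finset.mem_filter.1 (hB' hx)
    have haA' : a ∉ A' := fun h => (hAA a h).2 hza
    have hLA : ∀ x ∈ insert a A', x ∈ A := by
      intro x hx
      rcases Finset.mem_insert.1 hx with rfl | hx
      · exact ha
      · exact (hAA x hx).1
    obtain ⟨f, f1, f2, f3⟩ := mkKb (G := G) (s := s) (L := insert a A') (R := B')
      (by rw [Finset.card_insert_of_notMem haA', hA'c]) hB'c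
      { l := fun x hx y hy => hq.l x (hLA x hx) y (hLA y hy)
        r := fun x hx y hy => hq.r x (hBB x hx).1 y (hBB y hy).1
        c := fun x hx y hy => hq.c x (hLA x hx) y (hBB y hy).1 } (Finset.mem_insert_self a A')
    refine ⟨f, ?_, ?_⟩
    · rintro (i | i)
      · exact Or.inl (hLA _ (f1 i))
      · exact Or.inr (hBB _ (f2 i)).1
    · rintro (i | i)
      · constructor
        · intro h
          rcases Finset.mem_insert.1 (f1 i) with h' | h'
          · exact f.injective (h'.trans f3.symm)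
          · exact absurd h (hAA _ h').2
        · intro h
          rw [h, f3]
          exact hza
      · constructor
        · intro h
          exact absurd h (hBB _ (f2 i)).2
        · intro h
          exact absurd h (by simp)

/-- the same for a vertex attached to either side -/
lemma klem2 {G : SimpleGraph V} (hG : ¬ Whl.HasWheel G) {s : ℕ} {A B : Finset V} (hq : Bq G A B)
    (hA : 2 * s + 2 ≤ A.card) (hB : 2 * s + 2 ≤ B.card) {z : V} (hzA : z ∉ A) (hzB : z ∉ B)
    (hz : ∃ x, (x ∈ A ∨ x ∈ B) ∧ G.Adj z x) :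
    (∃ f : Kb s ↪g G, (∀ x, f x ∈ A ∨ f x ∈ B) ∧ ∀ x, G.Adj z (f x) ↔ x = Sum.inl 0) ∨
      (∃ f : Kb s ↪g G, (∀ x, x ≠ Sum.inl 0 → f x ∈ A ∨ f x ∈ B) ∧ f (Sum.inl 0) = z) := by
  obtain ⟨x, hx | hx, hzx⟩ := hz
  · exact klem hG hq hA hB hzA hzB ⟨x, hx, hzx⟩
  · rcases klem hG hq.symm hB hA hzB hzA ⟨x, hx, hzx⟩ with ⟨f, h1, h2⟩ | ⟨f, h1, h2⟩
    · exact Or.inl ⟨f, fun x => (h1 x).symm, h2⟩
    · exact Or.inr ⟨f, fun x hx => (h1 x hx).symm, h2⟩

end Wtb
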