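import Mathlib

/-!
# Colourings of sets of vertices, connected sets (MP_e2a513_co, dumbbells)
-/

set_option autoImplicit false

namespace Wtb

variable {V : Type}

/-- `S` can be coloured with `k` colours -/
def Col (G : SimpleGraph V) (S : Set V) (k : ℕ) : Prop :=
  ∃ f : V → ℕ, (∀ x ∈ S, f x < k) ∧ ∀ x ∈ S, ∀ y ∈ S, G.Adj x y → f x ≠ f y

lemma Col.mono {G : SimpleGraph V} {S T : Set V} {k l : ℕ} (h : Col G T k) (hS : S ⊆ T)
    (hk : k ≤ l) : Col G S l := by
  obtain ⟨f, h1, h2⟩ := h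
  exact ⟨f, fun x hx => (h1 x (hS hx)).trans_le hk, fun x hx y hy => h2 x (hS hx) y (hS hy)⟩

lemma Col.union {G : SimpleGraph V} {S T : Set V} {k l : ℕ} (h : Col G S k) (h' : Col G T l) :
    Col G (S ∪ T) (k + l) := by
  classical
  obtain ⟨f, h1, h2⟩ := h
  obtain ⟨f', h3, h4⟩ := h'
  refine ⟨fun x => if x ∈ S then f x else k + f' x, ?_, ?_⟩
  · intro x hx
    by_cases hS : x ∈ S
    · simp only [hS, if_true]
      have := h1 x hS
      omega
    · have hT : x ∈ T := hx.resolve_left hS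
      simp only [hS, if_false]
      have := h3 x hT
      omega
  · intro x hx y hy hxy
    by_cases hS : x ∈ S
    · have a1 := h1 x hS
      by_cases hS' : y ∈ S
      · simp only [hS, hS', if_true]
        exact h2 x hS y hS' hxy
      · simp only [hS, hS', if_true, if_false]
        omega
    · have hT : x ∈ T := hx.resolve_left hS
      by_cases hS' : y ∈ S
      · have a1 := h1 y hS'
        simp only [hS, hS', if_true, if_false]
        omega
      · have hT' : y ∈ T := hy.resolve_left hS'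
        simp only [hS, hS', if_false]
        have := h4 x hT y hT' hxy
        omega

lemma Col.empty (G : SimpleGraph V) (k : ℕ) : Col G ∅ k :=
  ⟨fun _ => 0, fun _ hx => hx.elim, fun _ hx => hx.elim⟩

lemma Col.singleton (G : SimpleGraph V) (x : V) : Col G {x} 1 :=
  ⟨fun _ => 0, fun _ _ => Nat.one_pos, fun a ha b hb hab => by
    rw [Set.mem_singleton_iff] at ha hb
    subst ha
    subst hb
    exact absurd hab (G.loopless.irrefl _)⟩

/-- a union of `n` sets with `k` colours each -/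
lemma Col.iUnion_range {G : SimpleGraph V} {k : ℕ} (n : ℕ) (T : ℕ → Set V)
    (h : ∀ i < n, Col G (T i) k) : Col G {x | ∃ i < n, x ∈ T i} (n * k) := by
  induction n with
  | zero =>
    refine (Col.empty G _).mono ?_ le_rfl
    rintro x ⟨i, hi, _⟩
    omega
  | succ n ih =>
    refine ((ih fun i hi => h i (by omega)).union (h n (by omega))).mono ?_ (by
      rw [Nat.succ_mul])
    rintro x ⟨i, hi, hx⟩
    rcases Nat.lt_succ_iff_lt_or_eq.1 hi with h1 | h1
    · exact Or.inl ⟨i, h1, hx⟩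
    · subst h1
      exact Or.inr hx

/-- a union of sets with `k` colours each, over a finset -/
lemma Col.biUnion {G : SimpleGraph V} {k : ℕ} (F : Finset V) (T : V → Set V)
    (h : ∀ i ∈ F, Col G (T i) k) : Col G {x | ∃ i ∈ F, x ∈ T i} (F.card * k) := by
  classical
  induction F using Finset.induction_on with
  | empty =>
    refine (Col.empty G _).mono ?_ le_rfl
    rintro x ⟨i, hi, _⟩
    exact absurd hi (Finset.notMem_empty _)
  | insert a F ha ih =>
    rw [Finset.card_insert_of_notMem ha, Nat.succ_mul]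
    refine ((ih fun i hi => h i (Finset.mem_insert_of_mem hi)).union
      (h a (Finset.mem_insert_self _ _))).mono ?_ le_rfl
    rintro x ⟨i, hi, hx⟩
    rcases Finset.mem_insert.1 hi with h1 | h1
    · subst h1
      exact Or.inr hx
    · exact Or.inl ⟨i, h1, hx⟩

lemma Col.of_colorable {G : SimpleGraph V} {S : Set V} {k : ℕ} (h : (G.induce S).Colorable k) :
    Col G S k := by
  classical
  obtain ⟨c⟩ := h
  refine ⟨fun x => if hx : x ∈ S then (c ⟨x, hx⟩ : ℕ) else 0, ?_, ?_⟩
  · intro x hx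
    simp only [hx, dif_pos]
    exact (c ⟨x, hx⟩).2
  · intro x hx y hy hxy
    simp only [hx, hy, dif_pos]
    intro he
    exact c.valid (v := ⟨x, hx⟩) (w := ⟨y, hy⟩) hxy (Fin.ext he)

lemma Col.colorable {G : SimpleGraph V} {k : ℕ} (h : Col G Set.univ k) : G.Colorable k := by
  obtain ⟨f, h1, h2⟩ := h
  refine ⟨SimpleGraph.Coloring.mk (fun x => ⟨f x, h1 x trivial⟩) ?_⟩
  intro x y hxy he
  exact h2 x trivial y trivial hxy (congrArg Fin.val he)

/-- `C` is closed in `S`: no edge from `C` to `S` outside `C` -/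
def Cl (G : SimpleGraph V) (S C : Set V) : Prop := ∀ x ∈ C, ∀ y ∈ S, G.Adj x y → y ∈ C

/-- `C` is connected -/
def Conn (G : SimpleGraph V) (C : Set V) : Prop :=
  ∀ D ⊆ C, D.Nonempty → Cl G C D → D = C

lemma Cl.trans {G : SimpleGraph V} {S C D : Set V} (h : Cl G S C) (h' : Cl G C D) (hD : D ⊆ C) :
    Cl G S D := fun x hx y hy hxy => h' x hx y (h x (hD hx) y hy hxy) hxy

lemma Cl.diff {G : SimpleGraph V} {C D : Set V} (h : Cl G C D) (hD : D ⊆ C) : Cl G C (C \ D) :=
  fun x hx y hy hxy => ⟨hy, fun hyD => hx.2 (h y hyD x hx.1 hxy.symm)⟩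

/-- a component with many colours -/
lemma comp_col [Finite V] {G : SimpleGraph V} {S : Set V} {k : ℕ} (h : ¬ Col G S k) :
    ∃ C ⊆ S, Conn G C ∧ ¬ Col G C k ∧ Cl G S C := by
  classical
  obtain ⟨C, ⟨h1, h2, h3⟩, hmin⟩ := WellFounded.has_min
    (wellFounded_lt : WellFounded ((· < ·) : Set V → Set V → Prop))
    {C : Set V | C ⊆ S ∧ ¬ Col G C k ∧ Cl G S C} ⟨S, le_rfl, h, fun _ _ y hy _ => hy⟩
  refine ⟨C, h1, ?_, h2, h3⟩
  intro D hD hne hcl
  by_contra hDC
  have hlt : D < C := lt_of_le_of_ne hD hDC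
  have hlt' : C \ D < C := by
    refine lt_of_le_of_ne Set.sdiff_subset ?_
    intro he
    obtain ⟨x, hx⟩ := hne
    have : x ∈ C \ D := by
      rw [he]
      exact hD hx
    exact this.2 hx
  have c1 : Col G D k := by
    by_contra hc
    exact hmin D ⟨hD.trans h1, hc, h3.trans hcl hD⟩ hlt
  have c2 : Col G (C \ D) k := by
    by_contra hc
    exact hmin (C \ D) ⟨Set.sdiff_subset.trans h1, hc,
      h3.trans (hcl.diff hD) Set.sdiff_subset⟩ hlt'
  apply h2
  obtain ⟨f, a1, a2⟩ := c1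
  obtain ⟨f', b1, b2⟩ := c2
  refine ⟨fun x => if x ∈ D then f x else f' x, ?_, ?_⟩
  · intro x hx
    by_cases hxD : x ∈ D
    · simp only [hxD, if_true]
      exact a1 x hxD
    · simp only [hxD, if_false]
      exact b1 x ⟨hx, hxD⟩
  · intro x hx y hy hxy
    by_cases hxD : x ∈ D
    · have hyD : y ∈ D := hcl x hxD y hy hxy
      simp only [hxD, hyD, if_true]
      exact a2 x hxD y hyD hxy
    · have hyD : y ∉ D := fun hyD => hxD (hcl y hyD x hx hxy.symm)
      simp only [hxD, hyD, if_false]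
      exact b2 x ⟨hx, hxD⟩ y ⟨hy, hyD⟩ hxy

/-- the component of a vertex -/
lemma comp_mem [Finite V] {G : SimpleGraph V} {S : Set V} {d : V} (hd : d ∈ S) :
    ∃ C ⊆ S, Conn G C ∧ d ∈ C ∧ Cl G S C := by
  classical
  obtain ⟨C, ⟨h1, h2, h3⟩, hmin⟩ := WellFounded.has_min
    (wellFounded_lt : WellFounded ((· < ·) : Set V → Set V → Prop))
    {C : Set V | C ⊆ S ∧ d ∈ C ∧ Cl G S C} ⟨S, le_rfl, hd, fun _ _ y hy _ => hy⟩
  refine ⟨C, h1, ?_, h2, h3⟩
  intro D hD hne hcl
  by_contra hDC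
  by_cases hdD : d ∈ D
  · exact hmin D ⟨hD.trans h1, hdD, h3.trans hcl hD⟩ (lt_of_le_of_ne hD hDC)
  · refine hmin (C \ D) ⟨Set.sdiff_subset.trans h1, ⟨h2, hdD⟩,
      h3.trans (hcl.diff hD) Set.sdiff_subset⟩ (lt_of_le_of_ne Set.sdiff_subset ?_)
    intro he
    obtain ⟨x, hx⟩ := hne
    have : x ∈ C \ D := by
      rw [he]
      exact hD hx
    exact this.2 hx

/-- an edge leaving a proper nonempty subset of a connected set -/
lemma Conn.exit {G : SimpleGraph V} {C D : Set V} (h : Conn G C) (hD : D ⊆ C) (hne : D.Nonempty)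
    (hDC : ∃ u ∈ C, u ∉ D) : ∃ y ∈ D, ∃ u ∈ C, u ∉ D ∧ G.Adj y u := by
  by_contra hno
  push Not at hno
  obtain ⟨u, hu, huD⟩ := hDC
  have : D = C := by
    refine h D hD hne ?_
    intro x hx y hy hxy
    by_contra hyD
    exact hno x hx y hy hyD hxy
  rw [this] at huD
  exact huD hu

end Wtb
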