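import Pool.Agent.Wtb.Path

/-!
# Wheel-free graphs without dumbbells (MP_e2a513_co)
-/

set_option autoImplicit false
set_option linter.unusedSimpArgs false

namespace Wtb

variable {V : Type}

/-- the disjoint union of `H₁` and `H₂` together with the edge `ab` -/
def link {α β : Type} (H₁ : SimpleGraph α) (H₂ : SimpleGraph β) (a : α) (b : β) :
    SimpleGraph (α ⊕ β) where
  Adj
    | Sum.inl x, Sum.inl y => H₁.Adj x y
    | Sum.inr x, Sum.inr y => H₂.Adj x y
    | Sum.inl x, Sum.inr y => x = a ∧ y = b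
    | Sum.inr x, Sum.inl y => y = a ∧ x = b
  symm := ⟨by
    rintro (x | x) (y | y) h
    · exact SimpleGraph.Adj.symm (G := H₁) h
    · exact h
    · exact h
    · exact SimpleGraph.Adj.symm (G := H₂) h⟩
  loopless := ⟨by
    rintro (x | x) h
    · exact H₁.loopless.irrefl x h
    · exact H₂.loopless.irrefl x h⟩

/-- `K_{s+1,s+1}` with a pendant path of `l + 1` vertices -/
def Tailed (s l : ℕ) : SimpleGraph ((Fin (s + 1) ⊕ Fin (s + 1)) ⊕ Fin (l + 1)) :=
  link (completeBipartiteGraph (Fin (s + 1)) (Fin (s + 1))) (SimpleGraph.pathGraph (l + 1))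
    (Sum.inl 0) 0

/-- two copies of `K_{s+1,s+1}` joined by a path with `n + 1` vertices outside -/
def Dumbbell (s n : ℕ) :
    SimpleGraph (((Fin (s + 1) ⊕ Fin (s + 1)) ⊕ Fin (n + 1)) ⊕ (Fin (s + 1) ⊕ Fin (s + 1))) :=
  link (Tailed s n) (completeBipartiteGraph (Fin (s + 1)) (Fin (s + 1))) (Sum.inr (Fin.last n))
    (Sum.inl 0)

/-- no common vertex and no edge between -/
def Anti {α β : Type} (G : SimpleGraph V) (e : α → V) (e' : β → V) : Prop :=
  ∀ x y, e x ≠ e' y ∧ ¬ G.Adj (e x) (e' y)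

lemma mkLink {α β : Type} {G : SimpleGraph V} {H₁ : SimpleGraph α} {H₂ : SimpleGraph β} {a : α}
    {b : β} (f : H₁ ↪g G) (g : H₂ ↪g G)
    (h : ∀ x y, f x ≠ g y ∧ (G.Adj (f x) (g y) ↔ x = a ∧ y = b)) :
    ∃ e : link H₁ H₂ a b ↪g G, (∀ x, e (Sum.inl x) = f x) ∧ ∀ y, e (Sum.inr y) = g y := by
  refine ⟨{ toFun := Sum.elim f g, inj' := ?_, map_rel_iff' := ?_ }, fun _ => rfl, fun _ => rfl⟩
  · rintro (x | x) (y | y) hxy
    · simp only [Sum.elim_inl] at hxy
      rw [f.injective hxy]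
    · exact absurd hxy (h x y).1
    · exact absurd hxy.symm (h y x).1
    · simp only [Sum.elim_inr] at hxy
      rw [g.injective hxy]
  · rintro (x | x) (y | y)
    · exact f.map_rel_iff
    · exact (h x y).2
    · change G.Adj (g x) (f y) ↔ _
      rw [G.adj_comm]
      exact (h y x).2
    · exact g.map_rel_iff

lemma mkPath {G : SimpleGraph V} {n : ℕ} {p : ℕ → V}
    (h : ∀ i j, i < j → j ≤ n → p i ≠ p j ∧ (G.Adj (p i) (p j) ↔ j = i + 1)) :
    ∃ e : SimpleGraph.pathGraph (n + 1) ↪g G, ∀ i : Fin (n + 1), e i = p i := by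
  refine ⟨{ toFun := fun i => p i, inj' := ?_, map_rel_iff' := ?_ }, fun _ => rfl⟩
  · intro i j hij
    have hij' : p i = p j := hij
    rcases lt_trichotomy (i : ℕ) (j : ℕ) with h1 | h1 | h1
    · exact absurd hij' (h i j h1 (by omega)).1
    · exact Fin.ext h1
    · exact absurd hij'.symm (h j i h1 (by omega)).1
  · intro i j
    change G.Adj (p i) (p j) ↔ _
    rw [SimpleGraph.pathGraph_adj]
    rcases lt_trichotomy (i : ℕ) (j : ℕ) with h1 | h1 | h1
    · rw [(h i j h1 (by omega)).2]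
      omega
    · rw [h1]
      constructor
      · exact fun h2 => absurd h2 (G.loopless.irrefl _)
      · omega
    · rw [G.adj_comm, (h j i h1 (by omega)).2]
      omega

lemma mkTailed {G : SimpleGraph V} {s n l : ℕ} {f : Kb s ↪g G} {u : V} {C : Set V} {p : ℕ → V}
    (hl : l ≤ n) (h0 : p 0 = u) (h1 : ∀ i, 1 ≤ i → i ≤ n → p i ∈ C)
    (h2 : ∀ i j, i < j → j ≤ n → p i ≠ p j ∧ (G.Adj (p i) (p j) ↔ j = i + 1))
    (h3 : ∀ x, u ≠ f x ∧ (G.Adj u (f x) ↔ x = Sum.inl 0))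
    (h4 : ∀ y ∈ C, ∀ x, y ≠ f x ∧ ¬ G.Adj y (f x)) :
    ∃ t : Tailed s l ↪g G, (∀ x, t (Sum.inl x) = f x) ∧ ∀ i : Fin (l + 1), t (Sum.inr i) = p i := by
  obtain ⟨e, he⟩ := mkPath (G := G) (n := l) (p := p) (fun i j hij hj => h2 i j hij (by omega))
  obtain ⟨t, t1, t2⟩ := mkLink (a := (Sum.inl 0 : Fin (s + 1) ⊕ Fin (s + 1)))
    (b := (0 : Fin (l + 1))) f e (by
      intro x i
      rw [he i]
      rcases Nat.eq_zero_or_pos (i : ℕ) with hi | hi
      · have hi' : i = 0 := Fin.ext hi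
        rw [hi, h0]
        refine ⟨(h3 x).1.symm, ?_⟩
        rw [G.adj_comm, (h3 x).2]
        exact ⟨fun h => ⟨h, hi'⟩, fun h => h.1⟩
      · have hm := h1 i hi (by omega)
        obtain ⟨a1, a2⟩ := h4 _ hm x
        refine ⟨a1.symm, fun h => absurd h.symm a2, fun h => ?_⟩
        rw [h.2] at hi
        exact absurd hi (by simp))
  exact ⟨t, t1, fun i => (t2 i).trans (he i)⟩

lemma DB.emb {G : SimpleGraph V} {s n : ℕ} {W : Set V} (h : DB G s n W) :
    ∃ d : Dumbbell s n ↪g G, ∀ x, d x ∈ W := by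
  obtain ⟨f, u, C, hf, hu, hC, h3, h4, p, f2, p0, p1, p2, p3, p4⟩ := h
  obtain ⟨t, t1, t2⟩ := mkTailed (l := n) le_rfl p0 p1 p3 h3 h4
  obtain ⟨d, d1, d2⟩ := mkLink (a := (Sum.inr (Fin.last n) :
      (Fin (s + 1) ⊕ Fin (s + 1)) ⊕ Fin (n + 1)))
    (b := (Sum.inl 0 : Fin (s + 1) ⊕ Fin (s + 1))) t f2 (by
      rintro (x | i) y
      · rw [t1 x]
        obtain ⟨a1, a2⟩ := h4 _ (p2 y) x
        refine ⟨a1.symm, fun h => absurd h.symm a2, fun h => ?_⟩
        exact absurd h.1 (by simp)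
      · rw [t2 i]
        obtain ⟨a1, a2⟩ := p4 i (by omega) y
        refine ⟨a1, ?_⟩
        rw [a2]
        constructor
        · rintro ⟨h5, h6⟩
          exact ⟨congrArg Sum.inr (Fin.ext h5), h6⟩
        · rintro ⟨h5, h6⟩
          refine ⟨?_, h6⟩
          rw [Sum.inr.inj h5]
          rfl)
  refine ⟨d, ?_⟩
  rintro ((x | i) | y)
  · have h5 : f x ∈ W := hf x
    rw [← t1, ← d1] at h5
    exact h5
  · have h5 : p i ∈ W := by
      rcases Nat.eq_zero_or_pos (i : ℕ) with hi | hi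
      · rw [hi, p0]
        exact hu
      · exact hC (p1 i hi (by omega))
    rw [← t2, ← d1] at h5
    exact h5
  · have h5 : f2 y ∈ W := hC (p2 y)
    rw [← d2] at h5
    exact h5

lemma DB.tail {G : SimpleGraph V} {s n l : ℕ} {W : Set V} (h : DB G s n W) (hl : l ≤ n) :
    ∃ t : Tailed s l ↪g G, ∀ x, t x ∈ W := by
  obtain ⟨f, u, C, hf, hu, hC, h3, h4, p, f2, p0, p1, p2, p3, p4⟩ := h
  obtain ⟨t, t1, t2⟩ := mkTailed (l := l) hl p0 p1 p3 h3 h4
  refine ⟨t, ?_⟩
  rintro (x | i)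
  · rw [t1]
    exact hf x
  · rw [t2]
    rcases Nat.eq_zero_or_pos (i : ℕ) with hi | hi
    · rw [hi, p0]
      exact hu
    · exact hC (p1 i hi (by omega))

/-- a dumbbell and `m` tailed bicliques, pairwise anticomplete, inside `W` -/
def Conf (G : SimpleGraph V) (s l m : ℕ) (W : Set V) : Prop :=
  ∃ n, l ≤ n ∧ ∃ (d : Dumbbell s n ↪g G) (t : Fin m → (Tailed s l ↪g G)),
    (∀ x, d x ∈ W) ∧ (∀ i x, t i x ∈ W) ∧ (∀ i, Anti G d (t i)) ∧
    ∀ i j, i ≠ j → Anti G (t i) (t j)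

lemma conf [Finite V] {G : SimpleGraph V} (hG : ¬ Whl.HasWheel G) {s c0 c1 : ℕ}
    (h0 : HB G (2 * s + 2) c0) (h1 : ∀ v, Col G {x | G.Adj v x} c1) (l : ℕ) (m : ℕ) :
    ∀ W : Set V, ¬ Col G W (c0 + (l + 2) * c1 + (4 * s + 4) * c1 +
      m * ((2 * s + l + 3) * (1 + c1))) → Conf G s l m W := by
  classical
  have base : ∀ W : Set V, ¬ Col G W (c0 + (l + 2) * c1 + (4 * s + 4) * c1) →
      ∃ n, l ≤ n ∧ DB G s n W := by
    intro W hW
    obtain ⟨C, a1, a2, a3, a4⟩ := comp_col hW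
    obtain ⟨n, hn, f, u, D, b1, b2, b3, b4⟩ := dumb (s := s) hG h0 h1 l ((4 * s + 4) * c1)
      (by
        intro A B hA hB
        rw [hA, hB]
        exact Nat.mul_le_mul_right _ (by omega)) a2 a3
    exact ⟨n, hn, f, u, D, fun x => a1 (b1 x), a1 b2, b3.trans a1, b4⟩
  induction m with
  | zero =>
    intro W hW
    rw [Nat.zero_mul, Nat.add_zero] at hW
    obtain ⟨n, hn, hD⟩ := base W hW
    obtain ⟨d, hd⟩ := hD.emb
    exact ⟨n, hn, d, fun i => i.elim0, hd, fun i => i.elim0, fun i => i.elim0,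
      fun i => i.elim0⟩
  | succ m ih =>
    intro W hW
    obtain ⟨n, hn, hD⟩ := base W (fun h => hW (h.mono le_rfl (Nat.le_add_right _ _)))
    obtain ⟨t0, ht0⟩ := hD.tail hn
    set F : Finset V := Finset.univ.image t0 with hF
    have hFc : F.card ≤ 2 * s + l + 3 := by
      refine Finset.card_image_le.trans ?_
      simp only [Finset.card_univ, Fintype.card_sum, Fintype.card_fin]
      omega
    have hN : Col G {x | ∃ i ∈ F, x ∈ {x | x = i ∨ G.Adj i x}} (F.card * (1 + c1)) := by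
      refine Col.biUnion F _ (fun i _ => ?_)
      exact ((Col.singleton G i).union (h1 i)).mono (fun x hx => hx) le_rfl
    have hW' : ¬ Col G {x | x ∈ W ∧ ∀ i, x ≠ t0 i ∧ ¬ G.Adj (t0 i) x}
        (c0 + (l + 2) * c1 + (4 * s + 4) * c1 + m * ((2 * s + l + 3) * (1 + c1))) := by
      intro h
      refine hW ((h.union hN).mono ?_ ?_)
      · intro x hx
        by_cases hx' : ∀ i, x ≠ t0 i ∧ ¬ G.Adj (t0 i) x
        · exact Or.inl ⟨hx, hx'⟩
        · push Not at hx'
          obtain ⟨i, hi⟩ := hx'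
          refine Or.inr ⟨t0 i, Finset.mem_image_of_mem _ (Finset.mem_univ i), ?_⟩
          by_cases hxi : x = t0 i
          · exact Or.inl hxi
          · exact Or.inr (hi hxi)
      · have h2 := Nat.mul_le_mul_right (1 + c1) hFc
        have h3 : (m + 1) * ((2 * s + l + 3) * (1 + c1)) =
            m * ((2 * s + l + 3) * (1 + c1)) + (2 * s + l + 3) * (1 + c1) := by ring
        rw [h3]
        omega
    obtain ⟨n', hn', d, t, b1, b2, b3, b4⟩ := ih _ hW'
    refine ⟨n', hn', d, Fin.cons t0 t, fun x => (b1 x).1, ?_, ?_, ?_⟩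
    · intro i
      refine Fin.cases ?_ (fun j => ?_) i
      · intro x
        exact ht0 x
      · intro x
        exact (b2 j x).1
    · intro i
      refine Fin.cases ?_ (fun j => ?_) i
      · intro x y
        exact ⟨((b1 x).2 y).1, fun h => ((b1 x).2 y).2 h.symm⟩
      · exact b3 j
    · intro i j
      refine Fin.cases ?_ (fun i' => ?_) i
      · refine Fin.cases ?_ (fun j' => ?_) j
        · intro h
          exact absurd rfl h
        · intro _ x y
          exact ⟨((b2 j' y).2 x).1.symm, ((b2 j' y).2 x).2⟩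
      · refine Fin.cases ?_ (fun j' => ?_) j
        · intro _ x y
          exact ⟨((b2 i' x).2 y).1, fun h => ((b2 i' x).2 y).2 h.symm⟩
        · intro h
          exact b4 i' j' (fun h' => h (by rw [h']))

lemma wheel_induce {G : SimpleGraph V} (S : Set V) (h : Whl.HasWheel (G.induce S)) :
    Whl.HasWheel G := by
  obtain ⟨n, hn, c, h, hh, i, j, k, hij, hik, hjk, h1, h2, h3⟩ := h
  refine ⟨n, hn, (SimpleGraph.Embedding.induce S).comp c, h, ?_, i, j, k, hij, hik, hjk, h1, h2,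
    h3⟩
  rintro ⟨i, hi⟩
  exact hh ⟨i, Subtype.ext hi⟩

lemma cliqueFree_induce {G : SimpleGraph V} {r : ℕ} (S : Set V) (h : G.CliqueFree r) :
    (G.induce S).CliqueFree r :=
  h.comap (SimpleGraph.Embedding.induce S).isContained

/-- large chromatic number gives large bicliques -/
lemma hb_of (w N : ℕ) : ∃ c0 : ℕ, ∀ {V : Type} [Finite V] (G : SimpleGraph V),
    ¬ Whl.HasWheel G → G.CliqueFree (w + 1) → HB G N c0 := by
  classical
  obtain ⟨c, hc⟩ := Whl.chi_bounded w N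
  refine ⟨c, ?_⟩
  intro V _ G hG hw C hC
  have h1 : ¬ IsEmpty (completeBipartiteGraph (Fin N) (Fin N) ↪g G.induce C) := by
    intro he
    exact hC (Col.of_colorable (hc (G.induce C) (fun h => hG (wheel_induce C h))
      (cliqueFree_induce C hw) he).1)
  rw [not_isEmpty_iff] at h1
  obtain ⟨e⟩ := h1
  have hadj : ∀ x y, G.Adj (e x : V) (e y : V) ↔
      (completeBipartiteGraph (Fin N) (Fin N)).Adj x y := fun x y => e.map_rel_iff
  refine ⟨Finset.univ.image fun i => (e (Sum.inl i) : V),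
    Finset.univ.image fun i => (e (Sum.inr i) : V), ⟨?_, ?_, ?_⟩, ?_, ?_, ?_, ?_⟩
  · intro x hx y hy
    obtain ⟨i, _, rfl⟩ := Finset.mem_image.1 hx
    obtain ⟨j, _, rfl⟩ := Finset.mem_image.1 hy
    rw [hadj]
    simp
  · intro x hx y hy
    obtain ⟨i, _, rfl⟩ := Finset.mem_image.1 hx
    obtain ⟨j, _, rfl⟩ := Finset.mem_image.1 hy
    rw [hadj]
    simp
  · intro x hx y hy
    obtain ⟨i, _, rfl⟩ := Finset.mem_image.1 hx
    obtain ⟨j, _, rfl⟩ := Finset.mem_image.1 hy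
    rw [hadj]
    simp
  · rw [Finset.card_image_of_injective _ (fun i j hij =>
      Sum.inl.inj (e.injective (Subtype.ext hij)))]
    simp
  · rw [Finset.card_image_of_injective _ (fun i j hij =>
      Sum.inr.inj (e.injective (Subtype.ext hij)))]
    simp
  · intro x hx
    obtain ⟨i, _, rfl⟩ := Finset.mem_image.1 hx
    exact (e (Sum.inl i)).2
  · intro x hx
    obtain ⟨i, _, rfl⟩ := Finset.mem_image.1 hx
    exact (e (Sum.inr i)).2

/-- neighbourhoods contain no hole of length four -/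
lemma nbr_of (w : ℕ) : ∃ c1 : ℕ, ∀ {V : Type} [Finite V] (G : SimpleGraph V),
    ¬ Whl.HasWheel G → G.CliqueFree (w + 1) → ∀ v, Col G {x | G.Adj v x} c1 := by
  obtain ⟨c, hc⟩ := Whl.chi_bounded w 2
  refine ⟨c, ?_⟩
  intro V _ G hG hw v
  refine Col.of_colorable (hc (G.induce {x | G.Adj v x}) (fun h => hG (wheel_induce _ h))
    (cliqueFree_induce _ hw) ⟨fun e => hG ?_⟩).1
  have hadj : ∀ x y, G.Adj (e x : V) (e y : V) ↔
      (completeBipartiteGraph (Fin 2) (Fin 2)).Adj x y := fun x y => e.map_rel_iff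
  refine fourwheel (a := (e (Sum.inl 0) : V)) (b := (e (Sum.inr 0) : V))
    (a' := (e (Sum.inl 1) : V)) (b' := (e (Sum.inr 1) : V)) (z := v) ((hadj _ _).2 (by simp))
    ((hadj _ _).2 (by simp)) ((hadj _ _).2 (by simp)) ((hadj _ _).2 (by simp))
    (fun h => by simpa using (hadj _ _).1 h) (fun h => by simpa using (hadj _ _).1 h) ?_ ?_
    (e (Sum.inr 1)).2.ne (e (Sum.inl 0)).2 (e (Sum.inr 0)).2 (e (Sum.inl 1)).2
  · intro h
    have := e.injective (Subtype.ext h)
    simp at this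
  · intro h
    have := e.injective (Subtype.ext h)
    simp at this

/-- MAIN THEOREM -/
theorem main (w s l m : ℕ) : ∃ c : ℕ, ∀ {V : Type} [Finite V] (G : SimpleGraph V),
    ¬ Whl.HasWheel G → G.CliqueFree (w + 1) →
    (¬ ∃ n, l ≤ n ∧ ∃ (d : Dumbbell s n ↪g G) (t : Fin m → (Tailed s l ↪g G)),
      (∀ i, Anti G d (t i)) ∧ ∀ i j, i ≠ j → Anti G (t i) (t j)) → G.Colorable c := by
  obtain ⟨c0, h0⟩ := hb_of w (2 * s + 2)
  obtain ⟨c1, h1⟩ := nbr_of w
  refine ⟨c0 + (l + 2) * c1 + (4 * s + 4) * c1 + m * ((2 * s + l + 3) * (1 + c1)), ?_⟩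
  intro V _ G hG hw hno
  apply Col.colorable
  by_contra hc
  obtain ⟨n, hn, d, t, _, _, b3, b4⟩ := conf (s := s) hG (h0 G hG hw) (h1 G hG hw) l m _ hc
  exact hno ⟨n, hn, d, t, b3, b4⟩

end Wtb
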