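import Pool.Agent.Wtb.Bic

/-!
# Induced paths ending at bicliques (MP_e2a513_co, dumbbells)
-/

set_option autoImplicit false

namespace Wtb

variable {V : Type}

/-- an induced path `p 0 = v, p 1, .., p n` with `p 1, .., p n` in `C`, pendant at the vertex
`f (inl 0)` of an induced `K_{s+1,s+1}` inside `C` -/
def PB (G : SimpleGraph V) (s n : ℕ) (v : V) (C : Set V) : Prop :=
  ∃ (p : ℕ → V) (f : Kb s ↪g G), p 0 = v ∧ (∀ i, 1 ≤ i → i ≤ n → p i ∈ C) ∧ (∀ x, f x ∈ C) ∧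
    (∀ i j, i < j → j ≤ n → p i ≠ p j ∧ (G.Adj (p i) (p j) ↔ j = i + 1)) ∧
    (∀ i ≤ n, ∀ x, p i ≠ f x ∧ (G.Adj (p i) (f x) ↔ i = n ∧ x = Sum.inl 0))

lemma PB.zero {G : SimpleGraph V} {s : ℕ} {v : V} {C : Set V} (f : Kb s ↪g G)
    (hf : ∀ x, f x ∈ C) (hv : v ∉ C) (h : ∀ x, G.Adj v (f x) ↔ x = Sum.inl 0) :
    PB G s 0 v C := by
  refine ⟨fun _ => v, f, rfl, fun i h1 h2 => absurd h1 (by omega), hf,
    fun i j h1 h2 => absurd h1 (by omega), ?_⟩
  intro i hi x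
  refine ⟨fun h1 => hv ?_, ?_⟩
  · have h1' : v = f x := h1
    rw [h1']
    exact hf x
  rw [h x]
  constructor
  · exact fun h => ⟨by omega, h⟩
  · exact fun h => h.2

lemma PB.step {G : SimpleGraph V} {s n : ℕ} {v u : V} {C C' : Set V} (h : PB G s n u C')
    (hu : u ∈ C) (hvu : G.Adj v u) (hv : v ∉ C) (hC : C' ⊆ C) (hvC : ∀ x ∈ C', ¬ G.Adj v x) :
    PB G s (n + 1) v C := by
  obtain ⟨p, f, h0, h1, h2, h3, h4⟩ := h
  refine ⟨fun i => Nat.casesOn i v p, f, rfl, ?_, fun x => hC (h2 x), ?_, ?_⟩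
  · intro i hi1 hi2
    rcases i with _ | i
    · omega
    · rcases i with _ | i
      · change p 0 ∈ C
        rw [h0]
        exact hu
      · exact hC (h1 (i + 1) (by omega) (by omega))
  · intro i j hij hj
    rcases j with _ | j
    · omega
    · rcases i with _ | i
      · change v ≠ p j ∧ (G.Adj v (p j) ↔ j + 1 = 0 + 1)
        rcases j with _ | j
        · rw [h0]
          exact ⟨hvu.ne, fun _ => rfl, fun _ => hvu⟩
        · have hm := h1 (j + 1) (by omega) (by omega)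
          refine ⟨fun h => hv (h ▸ hC hm), fun h => absurd h (hvC _ hm), fun h => ?_⟩
          omega
      · change p i ≠ p j ∧ (G.Adj (p i) (p j) ↔ j + 1 = i + 1 + 1)
        obtain ⟨a1, a2⟩ := h3 i j (by omega) (by omega)
        refine ⟨a1, ?_⟩
        rw [a2]
        omega
  · intro i hi x
    rcases i with _ | i
    · change v ≠ f x ∧ (G.Adj v (f x) ↔ 0 = n + 1 ∧ x = Sum.inl 0)
      refine ⟨fun h => hv (h ▸ hC (h2 x)), fun h => absurd h (hvC _ (h2 x)), fun h => ?_⟩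
      omega
    · change p i ≠ f x ∧ (G.Adj (p i) (f x) ↔ i + 1 = n + 1 ∧ x = Sum.inl 0)
      obtain ⟨a1, a2⟩ := h4 i (by omega) x
      refine ⟨a1, ?_⟩
      rw [a2]
      constructor
      · rintro ⟨h5, h6⟩
        exact ⟨by omega, h6⟩
      · rintro ⟨h5, h6⟩
        exact ⟨by omega, h6⟩

lemma PB.mono {G : SimpleGraph V} {s n : ℕ} {v : V} {C D : Set V} (h : PB G s n v C)
    (hC : C ⊆ D) : PB G s n v D := by
  obtain ⟨p, f, h0, h1, h2, h3, h4⟩ := h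
  exact ⟨p, f, h0, fun i a b => hC (h1 i a b), fun x => hC (h2 x), h3, h4⟩

/-- ROOTED LEMMA: from every vertex outside a connected set that contains a large biclique there is
an induced path pendant at a biclique of the set -/
lemma rooted [Finite V] {G : SimpleGraph V} (hG : ¬ Whl.HasWheel G) {s : ℕ} (k : ℕ) :
    ∀ (v : V) (C : Set V), C.ncard ≤ k → Conn G C → v ∉ C → (∃ u ∈ C, G.Adj v u) →
      ∀ A B : Finset V, Bq G A B → 2 * s + 2 ≤ A.card → 2 * s + 2 ≤ B.card →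
      (∀ x ∈ A, x ∈ C) → (∀ x ∈ B, x ∈ C) → (∀ x, x ∈ A ∨ x ∈ B → ¬ G.Adj v x) →
      ∃ n, PB G s n v C := by
  induction k with
  | zero =>
    intro v C hk hc hv hu
    exfalso
    obtain ⟨u, hu, _⟩ := hu
    have h1 : C.ncard = 0 := by omega
    rw [Set.ncard_eq_zero (Set.toFinite C)] at h1
    rw [h1] at hu
    exact hu
  | succ k ih =>
    intro v C hk hc hv hu A B hq hA hB hAC hBC hvn
    obtain ⟨u0, hu0, hvu0⟩ := hu
    obtain ⟨a0, ha0⟩ := Finset.card_pos.1 (by omega : 0 < A.card)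
    obtain ⟨b0, hb0⟩ := Finset.card_pos.1 (by omega : 0 < B.card)
    obtain ⟨C', h1, h2, h3, h4⟩ := comp_mem (G := G) (S := {x | x ∈ C ∧ ¬ G.Adj v x}) (d := a0)
      ⟨hAC a0 ha0, hvn a0 (Or.inl ha0)⟩
    have hBC' : ∀ x ∈ B, x ∈ C' := fun x hx =>
      h4 a0 h3 x ⟨hBC x hx, hvn x (Or.inr hx)⟩ (hq.c a0 ha0 x hx)
    have hAC' : ∀ x ∈ A, x ∈ C' := fun x hx =>
      h4 b0 (hBC' b0 hb0) x ⟨hAC x hx, hvn x (Or.inl hx)⟩ (hq.c x hx b0 hb0).symm
    have hsub : C' ⊆ C := fun x hx => (h1 hx).1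
    have hnv : ∀ x ∈ C', ¬ G.Adj v x := fun x hx => (h1 hx).2
    obtain ⟨y, hy, u, hu, huC', hyu⟩ := hc.exit hsub ⟨a0, h3⟩ ⟨u0, hu0, fun h => hnv u0 h hvu0⟩
    have hvu : G.Adj v u := by
      by_contra h
      exact huC' (h4 y hy u ⟨hu, h⟩ hyu)
    have huA : u ∉ A := fun h => hvn u (Or.inl h) hvu
    have huB : u ∉ B := fun h => hvn u (Or.inr h) hvu
    by_cases hex : ∃ x, (x ∈ A ∨ x ∈ B) ∧ G.Adj u x
    · rcases klem2 (s := s) hG hq hA hB huA huB hex with ⟨f, f1, f2⟩ | ⟨f, f1, f2⟩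
      · refine ⟨1, PB.step (C' := C') (PB.zero f ?_ huC' f2) hu hvu hv hsub hnv⟩
        intro x
        rcases f1 x with h | h
        · exact hAC' _ h
        · exact hBC' _ h
      · refine ⟨0, PB.zero f ?_ hv ?_⟩
        · intro x
          by_cases hx : x = Sum.inl 0
          · rw [hx, f2]
            exact hu
          · rcases f1 x hx with h | h
            · exact hAC _ h
            · exact hBC _ h
        · intro x
          constructor
          · intro h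
            by_contra hx
            exact hvn _ (f1 x hx) h
          · intro h
            rw [h, f2]
            exact hvu
    · push Not at hex
      have hlt : C'.ncard < C.ncard := by
        refine Set.ncard_lt_ncard ?_ (Set.toFinite C)
        refine lt_of_le_of_ne hsub ?_
        intro he
        exact huC' (he ▸ hu)
      obtain ⟨n, hn⟩ := ih u C' (by omega) h2 huC' ⟨y, hy, hyu.symm⟩ A B hq hA hB hAC' hBC'
        (fun x hx => hex x hx)
      exact ⟨n + 1, hn.step hu hvu hv hsub hnv⟩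

/-- one step of a Gyarfas path -/
lemma gstep [Finite V] {G : SimpleGraph V} {v : V} {C : Set V} {k c1 : ℕ} (hc : Conn G C)
    (hu : ∃ u ∈ C, G.Adj v u) (h1 : Col G {x | G.Adj v x} c1) (h : ¬ Col G C (k + c1)) :
    ∃ C1 ⊆ C, Conn G C1 ∧ ¬ Col G C1 k ∧ (∀ x ∈ C1, ¬ G.Adj v x) ∧
      ∃ u ∈ C, G.Adj v u ∧ u ∉ C1 ∧ ∃ y ∈ C1, G.Adj u y := by
  obtain ⟨u0, hu0, hvu0⟩ := hu
  have h2 : ¬ Col G {x | x ∈ C ∧ ¬ G.Adj v x} k := by
    intro h2
    refine h ((h2.union h1).mono ?_ le_rfl)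
    intro x hx
    by_cases hvx : G.Adj v x
    · exact Or.inr hvx
    · exact Or.inl ⟨hx, hvx⟩
  obtain ⟨C1, a1, a2, a3, a4⟩ := comp_col h2
  have hsub : C1 ⊆ C := fun x hx => (a1 hx).1
  have hnv : ∀ x ∈ C1, ¬ G.Adj v x := fun x hx => (a1 hx).2
  have hne : C1.Nonempty := by
    rw [Set.nonempty_iff_ne_empty]
    intro h0
    rw [h0] at a3
    exact a3 (Col.empty G k)
  obtain ⟨y, hy, u, hu, huC', hyu⟩ := hc.exit hsub hne ⟨u0, hu0, fun h => hnv u0 h hvu0⟩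
  refine ⟨C1, hsub, a2, a3, hnv, u, hu, ?_, huC', y, hy, hyu.symm⟩
  by_contra h
  exact huC' (a4 y hy u ⟨hu, h⟩ hyu)

/-- `C` with more than `c0` colours contains a large biclique -/
def HB (G : SimpleGraph V) (N c0 : ℕ) : Prop :=
  ∀ C : Set V, ¬ Col G C c0 → ∃ A B : Finset V, Bq G A B ∧ N ≤ A.card ∧ N ≤ B.card ∧
    (∀ x ∈ A, x ∈ C) ∧ ∀ x ∈ B, x ∈ C

/-- LONG ROOTED LEMMA -/
lemma rootedl [Finite V] {G : SimpleGraph V} (hG : ¬ Whl.HasWheel G) {s c0 c1 : ℕ}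
    (h0 : HB G (2 * s + 2) c0) (h1 : ∀ v, Col G {x | G.Adj v x} c1) (l : ℕ) :
    ∀ (v : V) (C : Set V), Conn G C → v ∉ C → (∃ u ∈ C, G.Adj v u) →
      ¬ Col G C (c0 + (l + 1) * c1) → ∃ n, l ≤ n ∧ PB G s n v C := by
  induction l with
  | zero =>
    intro v C hc hv hu h
    rw [Nat.zero_add, Nat.one_mul] at h
    obtain ⟨C1, a1, a2, a3, a4, _⟩ := gstep hc hu (h1 v) h
    obtain ⟨A, B, hq, hA, hB, hAC, hBC⟩ := h0 C1 a3
    obtain ⟨n, hn⟩ := rooted (s := s) hG C.ncard v C le_rfl hc hv hu A B hq hA hB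
      (fun x hx => a1 (hAC x hx)) (fun x hx => a1 (hBC x hx)) (by
        rintro x (hx | hx)
        · exact a4 x (hAC x hx)
        · exact a4 x (hBC x hx))
    exact ⟨n, Nat.zero_le n, hn⟩
  | succ l ih =>
    intro v C hc hv hu h
    have he : c0 + (l + 1 + 1) * c1 = c0 + (l + 1) * c1 + c1 := by ring
    rw [he] at h
    obtain ⟨C1, a1, a2, a3, a4, u, b1, b2, b3, b4⟩ := gstep hc hu (h1 v) h
    obtain ⟨n, hn, hP⟩ := ih u C1 a2 b3 b4 a3
    exact ⟨n + 1, by omega, hP.step b1 b2 hv a1 a4⟩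

/-- two bicliques joined by a path inside `W` -/
def DB (G : SimpleGraph V) (s n : ℕ) (W : Set V) : Prop :=
  ∃ (f : Kb s ↪g G) (u : V) (C : Set V), (∀ x, f x ∈ W) ∧ u ∈ W ∧ C ⊆ W ∧
    (∀ x, u ≠ f x ∧ (G.Adj u (f x) ↔ x = Sum.inl 0)) ∧
    (∀ y ∈ C, ∀ x, y ≠ f x ∧ ¬ G.Adj y (f x)) ∧ PB G s n u C

lemma dumb [Finite V] {G : SimpleGraph V} (hG : ¬ Whl.HasWheel G) {s c0 c1 : ℕ}
    (h0 : HB G (2 * s + 2) c0) (h1 : ∀ v, Col G {x | G.Adj v x} c1) (l : ℕ) (K : ℕ)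
    (hK : ∀ A B : Finset V, A.card = 2 * s + 2 → B.card = 2 * s + 2 →
      (A.card + B.card) * c1 ≤ K) {W : Set V}
    (hc : Conn G W) (hW : ¬ Col G W (c0 + (l + 2) * c1 + K)) : ∃ n, l ≤ n ∧ DB G s n W := by
  classical
  obtain ⟨A', B', hq', hA', hB', hAW', hBW'⟩ := h0 W (fun h => hW (h.mono le_rfl (by
    have : 0 ≤ (l + 2) * c1 := Nat.zero_le _
    omega)))
  obtain ⟨A, hAA, hA⟩ := Finset.exists_subset_card_eq hA'
  obtain ⟨B, hBB, hB⟩ := Finset.exists_subset_card_eq hB'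
  have hq : Bq G A B := ⟨fun x hx y hy => hq'.l x (hAA hx) y (hAA hy),
    fun x hx y hy => hq'.r x (hBB hx) y (hBB hy), fun x hx y hy => hq'.c x (hAA hx) y (hBB hy)⟩
  have hAW : ∀ x ∈ A, x ∈ W := fun x hx => hAW' x (hAA hx)
  have hBW : ∀ x ∈ B, x ∈ W := fun x hx => hBW' x (hBB hx)
  obtain ⟨a0, ha0⟩ := Finset.card_pos.1 (by omega : 0 < A.card)
  obtain ⟨b0, hb0⟩ := Finset.card_pos.1 (by omega : 0 < B.card)
  have hNA : Col G {x | ∃ i ∈ A, x ∈ {x | G.Adj i x}} (A.card * c1) :=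
    Col.biUnion A _ (fun i _ => h1 i)
  have hNB : Col G {x | ∃ i ∈ B, x ∈ {x | G.Adj i x}} (B.card * c1) :=
    Col.biUnion B _ (fun i _ => h1 i)
  have hS : ¬ Col G {x | x ∈ W ∧ ∀ i, i ∈ A ∨ i ∈ B → ¬ G.Adj i x} (c0 + (l + 2) * c1) := by
    intro h
    refine hW ((h.union (hNA.union hNB)).mono ?_ ?_)
    · intro x hx
      by_cases hx' : ∀ i, i ∈ A ∨ i ∈ B → ¬ G.Adj i x
      · exact Or.inl ⟨hx, hx'⟩
      · push Not at hx'
        obtain ⟨i, hi | hi, hix⟩ := hx'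
        · exact Or.inr (Or.inl ⟨i, hi, hix⟩)
        · exact Or.inr (Or.inr ⟨i, hi, hix⟩)
    · have := hK A B hA hB
      rw [Nat.add_mul] at this
      omega
  obtain ⟨R, r1, r2, r3, r4⟩ := comp_col hS
  have hRW : R ⊆ W := fun x hx => (r1 hx).1
  have hanti : ∀ y ∈ R, ∀ i, i ∈ A ∨ i ∈ B → ¬ G.Adj y i := fun y hy i hi h =>
    (r1 hy).2 i hi h.symm
  have hdis : ∀ y ∈ R, y ∉ A ∧ y ∉ B := by
    intro y hy
    refine ⟨fun h => hanti y hy b0 (Or.inr hb0) (hq.c y h b0 hb0), fun h =>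
      hanti y hy a0 (Or.inl ha0) (hq.c a0 ha0 y h).symm⟩
  have hne : R.Nonempty := by
    rw [Set.nonempty_iff_ne_empty]
    intro h
    rw [h] at r3
    exact r3 (Col.empty G _)
  obtain ⟨y, hy, z, hz, hzR, hyz⟩ := hc.exit hRW hne ⟨a0, hAW a0 ha0, fun h => (hdis a0 h).1 ha0⟩
  have hzA : z ∉ A := fun h => hanti y hy z (Or.inl h) hyz
  have hzB : z ∉ B := fun h => hanti y hy z (Or.inr h) hyz
  have hex : ∃ x, (x ∈ A ∨ x ∈ B) ∧ G.Adj z x := by
    by_contra h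
    push Not at h
    exact hzR (r4 y hy z ⟨hz, fun i hi hiz => h i hi hiz.symm⟩ hyz)
  rcases klem2 (s := s) hG hq (by omega) (by omega) hzA hzB hex with ⟨f, f1, f2⟩ | ⟨f, f1, f2⟩
  · obtain ⟨n, hn, hP⟩ := rootedl (s := s) hG h0 h1 l z R r2 hzR ⟨y, hy, hyz.symm⟩
      (fun h => r3 (h.mono le_rfl (by
        have : (l + 2) * c1 = (l + 1) * c1 + c1 := by ring
        omega)))
    refine ⟨n, hn, f, z, R, ?_, hz, hRW, ?_, ?_, hP⟩
    · intro x
      rcases f1 x with h | h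
      · exact hAW _ h
      · exact hBW _ h
    · intro x
      refine ⟨?_, f2 x⟩
      intro h
      rcases f1 x with h' | h'
      · exact hzA (h ▸ h')
      · exact hzB (h ▸ h')
    · intro w hw x
      refine ⟨?_, hanti w hw _ (f1 x)⟩
      intro h
      rcases f1 x with h' | h'
      · exact (hdis w hw).1 (h ▸ h')
      · exact (hdis w hw).2 (h ▸ h')
  · have he : c0 + (l + 2) * c1 = c0 + (l + 1) * c1 + c1 := by ring
    rw [he] at r3
    obtain ⟨R1, a1, a2, a3, a4, u, b1, b2, b3, b4⟩ := gstep r2 ⟨y, hy, hyz.symm⟩ (h1 z) r3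
    obtain ⟨n, hn, hP⟩ := rootedl (s := s) hG h0 h1 l u R1 a2 b3 b4 a3
    refine ⟨n, hn, f, u, R1, ?_, hRW b1, a1.trans hRW, ?_, ?_, hP⟩
    · intro x
      by_cases hx : x = Sum.inl 0
      · rw [hx, f2]
        exact hz
      · rcases f1 x hx with h | h
        · exact hAW _ h
        · exact hBW _ h
    · intro x
      by_cases hx : x = Sum.inl 0
      · rw [hx, f2]
        exact ⟨b2.ne.symm, fun _ => rfl, fun _ => b2.symm⟩
      · refine ⟨?_, fun h => absurd h (hanti u b1 _ (f1 x hx)), fun h => absurd h hx⟩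
        intro h
        rcases f1 x hx with h' | h'
        · exact (hdis u b1).1 (h ▸ h')
        · exact (hdis u b1).2 (h ▸ h')
    · intro w hw x
      by_cases hx : x = Sum.inl 0
      · rw [hx, f2]
        refine ⟨?_, fun h => a4 w hw h.symm⟩
        intro h
        exact hzR (h ▸ a1 hw)
      · refine ⟨?_, hanti w (a1 hw) _ (f1 x hx)⟩
        intro h
        rcases f1 x hx with h' | h'
        · exact (hdis w (a1 hw)).1 (h ▸ h')
        · exact (hdis w (a1 hw)).2 (h ▸ h')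

end Wtb
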